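import Pool.Agent.W810.SYN.Stm

/-! Idempotents of the Rudin classes (part CLS). -/

set_option autoImplicit false

namespace Pool.Agent.W466.SYN.CLS

open MeasureTheory AddCircle Filter Topology Pool.Agent.Results.MP_535799_an.NonSidon
open Pool.Agent.W810.SYN

noncomputable section

lemma norm_coeff_le (f : L1) (n : ℤ) : ‖coeff f n‖ ≤ ‖f‖ := by
  unfold coeff fourierCoeff
  rw [L1.norm_eq_integral_norm]
  refine (norm_integral_le_integral_norm _).trans (le_of_eq ?_)
  congr 1
  ext t
  rw [norm_smul, fourier_apply, Circle.norm_coe, one_mul]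

lemma dense_poly (f : L1) (δ : ℝ) (hδ : 0 < δ) :
    ∃ (F : Finset ℤ) (b : ℤ → ℂ), ‖f - toL (poly F b)‖ < δ := by
  have h : f ∈ (Submodule.span ℂ (Set.range (fun n : ℤ => (fourierLp 1 n : L1)))).topologicalClosure := by
    rw [span_fourierLp_closure_eq_top (by norm_num)]
    trivial
  obtain ⟨g, hg, hgd⟩ := Metric.mem_closure_iff.1 h δ hδ
  have hg' : g ∈ Submodule.span ℂ (Set.range (fun n : ℤ => (fourierLp 1 n : L1))) := hg
  rw [Finsupp.mem_span_range_iff_exists_finsupp] at hg'
  obtain ⟨c, rfl⟩ := hg'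
  refine ⟨c.support, c, ?_⟩
  rw [toL_poly, ← dist_eq_norm]
  exact hgd

lemma fin_big (f : L1) (δ : ℝ) (hδ : 0 < δ) : {n : ℤ | δ ≤ ‖coeff f n‖}.Finite := by
  obtain ⟨F, b, h⟩ := dense_poly f δ hδ
  refine F.finite_toSet.subset ?_
  intro n hn
  by_contra hnF
  have h1 : coeff (f - toL (poly F b)) n = coeff f n := by
    rw [coeff_sub, coeff_toL_poly, if_neg (by simpa using hnF), sub_zero]
  have h2 := norm_coeff_le (f - toL (poly F b)) n
  rw [h1] at h2
  have hn' : δ ≤ ‖coeff f n‖ := hn
  linarith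

/-- convolution powers -/
def cpow (g : L1) : ℕ → L1
  | 0 => g
  | j + 1 => conv g (cpow g j)

lemma coeff_cpow (g : L1) (j : ℕ) (n : ℤ) : coeff (cpow g j) n = coeff g n ^ (j + 1) := by
  induction j with
  | zero => simp [cpow]
  | succ j ih =>
    show coeff (conv g (cpow g j)) n = _
    rw [coeff_conv, ih, ← pow_succ']

lemma ext_coeff (f g : L1) (h : ∀ n, coeff f n = coeff g n) : f = g := by
  rw [← sub_eq_zero]
  apply eq_zero_of_coeff
  intro n
  rw [coeff_sub, h, sub_self]

lemma cpow_tendsto (s : L1) (hs : ∀ n, ‖coeff s n‖ ≤ 1 / 4) : Tendsto (cpow s) atTop (𝓝 0) := by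
  obtain ⟨F, b, h⟩ := dense_poly s (1 / 4) (by norm_num)
  set B : ℝ := ∑ n ∈ F, ‖b n‖ * ‖(fourierLp 1 n : L1)‖ with hB
  have hB0 : 0 ≤ B := Finset.sum_nonneg (fun n _ => by positivity)
  have key : ∀ j, ‖conv (toL (poly F b)) (cpow s j)‖ ≤ B * (1 / 4) ^ (j + 1) := by
    intro j
    have h1 : conv (toL (poly F b)) (cpow s j) =
        toL (poly F (fun n => b n * coeff s n ^ (j + 1))) := by
      apply ext_coeff
      intro n
      rw [coeff_conv, coeff_toL_poly, coeff_toL_poly, coeff_cpow]
      split_ifs <;> simp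
    rw [h1, toL_poly, hB, Finset.sum_mul]
    refine (norm_sum_le _ _).trans (Finset.sum_le_sum (fun n _ => ?_))
    rw [norm_smul, norm_mul, norm_pow]
    have h2 : ‖coeff s n‖ ^ (j + 1) ≤ (1 / 4) ^ (j + 1) :=
      pow_le_pow_left₀ (norm_nonneg _) (hs n) _
    calc ‖b n‖ * ‖coeff s n‖ ^ (j + 1) * ‖(fourierLp 1 n : L1)‖
        ≤ ‖b n‖ * (1 / 4) ^ (j + 1) * ‖(fourierLp 1 n : L1)‖ := by gcongr
      _ = _ := by ring
  have hstep : ∀ j, ‖cpow s (j + 1)‖ ≤ B * (1 / 4) ^ (j + 1) + 1 / 4 * ‖cpow s j‖ := by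
    intro j
    have h1 : cpow s (j + 1) = conv (toL (poly F b)) (cpow s j) +
        conv (s - toL (poly F b)) (cpow s j) := by
      apply ext_coeff
      intro n
      show coeff (conv s (cpow s j)) n = _
      rw [coeff_add, coeff_conv, coeff_conv, coeff_conv, coeff_sub]
      ring
    rw [h1]
    refine (norm_add_le _ _).trans (add_le_add (key j) ?_)
    refine (norm_conv_le _ _).trans ?_
    exact mul_le_mul_of_nonneg_right h.le (norm_nonneg _)
  have hall : ∀ j, ‖cpow s j‖ ≤ (‖s‖ + B) * (1 / 2) ^ j := by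
    intro j
    induction j with
    | zero => simp [cpow, hB0]
    | succ j ih =>
      refine (hstep j).trans ?_
      have h2 : ((1 : ℝ) / 4) ^ (j + 1) ≤ 1 / 4 * (1 / 2) ^ j := by
        rw [pow_succ, mul_comm]
        apply mul_le_mul_of_nonneg_left _ (by norm_num)
        exact pow_le_pow_left₀ (by norm_num) (by norm_num) _
      have h3 : B * (1 / 4) ^ (j + 1) ≤ B * (1 / 4 * (1 / 2) ^ j) :=
        mul_le_mul_of_nonneg_left h2 hB0
      have h4 : 0 ≤ ‖s‖ * (1 / 2) ^ j := by positivity
      have h5 : (‖s‖ + B) * (1 / 2) ^ (j + 1) = 1 / 2 * ((‖s‖ + B) * (1 / 2) ^ j) := by ring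
      rw [h5]
      nlinarith
  rw [tendsto_zero_iff_norm_tendsto_zero]
  refine squeeze_zero (fun _ => norm_nonneg _) hall ?_
  have := (tendsto_pow_atTop_nhds_zero_of_lt_one (r := (1 / 2 : ℝ)) (by norm_num)
    (by norm_num)).const_mul (‖s‖ + B)
  simpa using this

section algebra

variable (A : Submodule ℂ L1) (hAc : IsClosed (A : Set L1)) (hA : ∀ f ∈ A, ∀ g ∈ A, conv f g ∈ A)

include hAc hA

/-- level sets of the coefficients -/
lemma level (f : L1) (hf : f ∈ A) (c : ℂ) (hc : c ≠ 0) (S : Finset ℤ)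
    (hS : ∀ n, n ∈ S ↔ coeff f n = c) : idem S ∈ A := by
  classical
  have hcpos : 0 < ‖c‖ := norm_pos_iff.mpr hc
  have hfin := fin_big f (‖c‖ / 2) (by positivity)
  set V : Finset ℂ := (hfin.toFinset.image (fun n => coeff f n)).erase c with hV
  set D : ℝ := ∏ v ∈ V, ((‖c‖ + ‖v‖) / ‖c - v‖) with hD
  have hD0 : 0 ≤ D := by
    rw [hD]
    exact Finset.prod_nonneg (fun v _ => by positivity)
  obtain ⟨k, hk⟩ : ∃ k : ℕ, (1 / 2 : ℝ) ^ (k + 1) * D ≤ 1 / 4 := by
    have h1 : Tendsto (fun k : ℕ => (1 / 2 : ℝ) ^ (k + 1) * D) atTop (𝓝 0) := by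
      have h2 := ((tendsto_pow_atTop_nhds_zero_of_lt_one (r := (1 / 2 : ℝ)) (by norm_num)
        (by norm_num)).comp (tendsto_add_atTop_nat 1)).mul_const D
      simpa using h2
    exact ((h1.eventually (gt_mem_nhds (show (0 : ℝ) < 1 / 4 by norm_num))).exists).imp
      (fun k hk => hk.le)
  obtain ⟨g, hg, hgn⟩ := exists_prod A hA f hf c k V
  have hg1 : ∀ n ∈ S, coeff g n = 1 := by
    intro n hn
    have hfc := (hS n).mp hn
    have h1 : ∏ v ∈ V, ((coeff f n - v) / (c - v)) = 1 := by
      apply Finset.prod_eq_one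
      intro v hv
      rw [hfc]
      apply div_self
      rw [sub_ne_zero]
      exact (Finset.ne_of_mem_erase hv).symm
    rw [hgn, h1, hfc, div_self hc]
    simp
  have hg2 : ∀ n, n ∉ S → ‖coeff g n‖ ≤ 1 / 4 := by
    intro n hn
    have hne : coeff f n ≠ c := fun h => hn ((hS n).mpr h)
    rw [hgn]
    by_cases hbig : ‖c‖ / 2 ≤ ‖coeff f n‖
    · have hmem : coeff f n ∈ V := by
        rw [hV, Finset.mem_erase]
        refine ⟨hne, Finset.mem_image.mpr ⟨n, ?_, rfl⟩⟩
        simpa using hbig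
      rw [Finset.prod_eq_zero hmem (by simp)]
      simp
    · push Not at hbig
      rw [norm_mul, norm_pow, norm_div, norm_prod]
      have h1 : ∏ v ∈ V, ‖(coeff f n - v) / (c - v)‖ ≤ D := by
        apply Finset.prod_le_prod (fun v _ => norm_nonneg _)
        intro v _
        rw [norm_div]
        apply div_le_div_of_nonneg_right _ (norm_nonneg _)
        exact (norm_sub_le _ _).trans (by linarith)
      have h2 : (‖coeff f n‖ / ‖c‖) ^ (k + 1) ≤ (1 / 2) ^ (k + 1) := by
        apply pow_le_pow_left₀ (by positivity)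
        rw [div_le_iff₀ hcpos]
        linarith
      exact (mul_le_mul h2 h1 (Finset.prod_nonneg (fun v _ => norm_nonneg _))
        (by positivity)).trans hk
  have hs : ∀ n, ‖coeff (g - idem S) n‖ ≤ 1 / 4 := by
    intro n
    rw [coeff_sub, coeff_idem]
    by_cases hn : n ∈ S
    · rw [if_pos hn, hg1 n hn]
      simp
    · rw [if_neg hn, sub_zero]
      exact hg2 n hn
  have hpow : ∀ j, cpow g j = cpow (g - idem S) j + idem S := by
    intro j
    apply ext_coeff
    intro n
    rw [coeff_add, coeff_cpow, coeff_cpow, coeff_sub, coeff_idem]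
    by_cases hn : n ∈ S
    · rw [if_pos hn, hg1 n hn]
      simp
    · rw [if_neg hn]
      simp
  have hmemA : ∀ j, cpow g j ∈ A := by
    intro j
    induction j with
    | zero => exact hg
    | succ j ih => exact hA g hg _ ih
  have hlim : Tendsto (cpow g) atTop (𝓝 (idem S)) := by
    have h1 := (cpow_tendsto _ hs).add_const (idem S)
    rw [zero_add] at h1
    refine h1.congr (fun j => (hpow j).symm)
  exact hAc.mem_of_tendsto hlim (Eventually.of_forall hmemA)

/-- from a finite set to the Rudin class -/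
lemma shrink (n0 : ℤ) (S : Finset ℤ) (hS : ∀ n, n ∈ S ↔ ∀ f ∈ A, coeff f n = coeff f n0)
    (T : Finset ℤ) : n0 ∈ T → idem T ∈ A → idem S ∈ A := by
  classical
  induction T using Finset.strongInduction with
  | H T ih =>
    intro h0 hT
    by_cases hTS : T = S
    · rw [← hTS]
      exact hT
    have hsub : S ⊆ T := by
      intro n hn
      have h1 := (hS n).1 hn _ hT
      rw [coeff_idem, coeff_idem, if_pos h0] at h1
      by_contra hc
      rw [if_neg hc] at h1
      exact zero_ne_one h1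
    obtain ⟨m, hmT, hmS⟩ : ∃ m ∈ T, m ∉ S := by
      by_contra hcon
      push Not at hcon
      exact hTS (Finset.Subset.antisymm hcon hsub)
    rw [hS] at hmS
    push Not at hmS
    obtain ⟨g, hg, hgm⟩ := hmS
    have hg' := hA g hg _ hT
    have hco : ∀ n, coeff (conv g (idem T)) n = if n ∈ T then coeff g n else 0 := by
      intro n
      rw [coeff_conv, coeff_idem]
      split_ifs <;> simp
    have hlev : ∀ a : ℤ, a ∈ T → coeff g a ≠ 0 →
        idem (T.filter (fun n => coeff g n = coeff g a)) ∈ A := by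
      intro a ha ha0
      apply level A hAc hA _ hg' (coeff g a) ha0
      intro n
      rw [hco, Finset.mem_filter]
      by_cases hn : n ∈ T
      · simp [hn]
      · simp only [hn, false_and, if_false, false_iff]
        exact fun h => ha0 h.symm
    by_cases hz : coeff g n0 = 0
    · have hm0 : coeff g m ≠ 0 := by
        rw [hz] at hgm
        exact hgm
      have h1 := hlev m hmT hm0
      have h2 : idem (T.filter (fun n => ¬ coeff g n = coeff g m)) ∈ A := by
        have h3 : idem (T.filter (fun n => ¬ coeff g n = coeff g m)) =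
            idem T - idem (T.filter (fun n => coeff g n = coeff g m)) := by
          apply ext_coeff
          intro n
          rw [coeff_sub, coeff_idem, coeff_idem, coeff_idem]
          by_cases hn : n ∈ T <;> by_cases hn2 : coeff g n = coeff g m <;> simp [hn, hn2]
        rw [h3]
        exact A.sub_mem hT h1
      refine ih _ ?_ ?_ h2
      · refine Finset.filter_ssubset.2 ⟨m, hmT, by simp⟩
      · rw [Finset.mem_filter]
        refine ⟨h0, ?_⟩
        rw [hz]
        exact fun h => hm0 h.symm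
    · have h1 := hlev n0 h0 hz
      refine ih _ ?_ ?_ h1
      · exact Finset.filter_ssubset.2 ⟨m, hmT, hgm⟩
      · rw [Finset.mem_filter]
        exact ⟨h0, rfl⟩

end algebra

/-- part CLS -/
theorem main : S_CLS := by
  intro A hAc hA n0 S hex hS
  obtain ⟨f, hf, hf0⟩ := hex
  have hfin : {n : ℤ | coeff f n = coeff f n0}.Finite := by
    refine (fin_big f ‖coeff f n0‖ (norm_pos_iff.2 hf0)).subset ?_
    intro n hn
    have hn' : coeff f n = coeff f n0 := hn
    show ‖coeff f n0‖ ≤ ‖coeff f n‖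
    rw [hn']
  refine shrink A hAc hA n0 S hS hfin.toFinset (by simp) ?_
  exact level A hAc hA f hf _ hf0 _ (fun n => by simp)

end

end Pool.Agent.W466.SYN.CLS
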